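import Pool.Agent.helper64.OT.SpecG

set_option autoImplicit false

namespace Pool.Agent.OG

open Finset Pool.Agent.OT Pool.Agent.SPI Pool.Agent.helper85.PG
open scoped Pointwise

theorem P3S_sum {α : Type} [Fintype α] [DecidableEq α] (f : α → α → ℝ) :
    ∑ c : α, ∑ c' ∈ univ.filter (fun c' : α => c ≠ c'), f c c' =
      ∑ z ∈ (univ : Finset (α × α)).filter (fun z => z.1 ≠ z.2), f z.1 z.2 := by
  rw [Finset.sum_filter, Fintype.sum_prod_type]
  exact Finset.sum_congr rfl fun c _ => Finset.sum_filter _ _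

theorem P3S_num (A4 M2 M1 S X N b E Q P N0 D : ℝ) (hN : 0 < N) (hb : 0 ≤ b) (hE : 0 ≤ E) (hQ : 0 ≤ Q) (hP : 0 ≤ P)
    (hD : 1 ≤ D) (hN0 : 0 ≤ N0) (hN0' : N0 ≤ D * N) (hA' : A4 ≤ (120 + 4 * D) * (N0 ^ 2 * P + N0 * Q)) (hM2 : 0 ≤ M2)
    (hM2' : M2 ≤ N * E) (hM1 : 0 ≤ M1) (hM1' : M1 ≤ N * b ^ 2) (hS : S ^ 4 ≤ A4 * M2 * M1 ^ 2)
    (hX : X ≤ 2 * N0 * b + 2 / N * S) : X ≤ 100 * D * (N * b + b * (E * (N * P + Q)) ^ (1 / 4 : ℝ)) := by
  set Y : ℝ := (E * (N * P + Q)) ^ (1 / 4 : ℝ) with hY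
  have hD0 : 0 ≤ D := by linarith
  have hpos : 0 ≤ E * (N * P + Q) := by positivity
  have hY0 : 0 ≤ Y := Real.rpow_nonneg hpos _
  have hY4 : Y ^ 4 = E * (N * P + Q) := by
    rw [hY, ← Real.rpow_natCast, ← Real.rpow_mul hpos]
    norm_num
  have h1 : N0 ^ 2 * P + N0 * Q ≤ D ^ 2 * (N * (N * P + Q)) := by
    have h2 : N0 ^ 2 ≤ (D * N) ^ 2 := pow_le_pow_left₀ hN0 hN0' 2
    have h3 : N0 ^ 2 * P ≤ (D * N) ^ 2 * P := mul_le_mul_of_nonneg_right h2 hP
    have h4 : N0 * Q ≤ D * N * Q := mul_le_mul_of_nonneg_right hN0' hQ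
    have h5 : 0 ≤ N * Q := by positivity
    have h6 : D * N * Q ≤ D ^ 2 * (N * Q) := by
      have : D ≤ D ^ 2 := by nlinarith
      have := mul_le_mul_of_nonneg_right this h5
      linarith
    have h7 : D ^ 2 * (N * (N * P + Q)) = (D * N) ^ 2 * P + D ^ 2 * (N * Q) := by ring
    rw [h7]
    linarith
  have h2 : S ^ 4 ≤ (124 * D ^ 4 * (N * (N * P + Q))) * (N * E) * (N * b ^ 2) ^ 2 := by
    refine hS.trans ?_
    have h0 : 0 ≤ D ^ 2 * (N * (N * P + Q)) := by positivity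
    have h3 : A4 ≤ 124 * D ^ 4 * (N * (N * P + Q)) := by
      have h8 : (120 + 4 * D) * (N0 ^ 2 * P + N0 * Q) ≤ (124 * D) * (D ^ 2 * (N * (N * P + Q))) := by
        refine mul_le_mul (by linarith) h1 (by positivity) (by positivity)
      have h9 : (124 * D) * (D ^ 2 * (N * (N * P + Q))) = 124 * D ^ 3 * (N * (N * P + Q)) := by ring
      have h10 : D ^ 3 ≤ D ^ 4 := pow_le_pow_right₀ hD (by norm_num)
      have h11 : 0 ≤ N * (N * P + Q) := by positivity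
      have h12 : 124 * D ^ 3 * (N * (N * P + Q)) ≤ 124 * D ^ 4 * (N * (N * P + Q)) :=
        mul_le_mul_of_nonneg_right (by linarith) h11
      linarith
    have h4 : A4 * M2 ≤ (124 * D ^ 4 * (N * (N * P + Q))) * (N * E) :=
      mul_le_mul h3 hM2' hM2 (by positivity)
    have h5 : M1 ^ 2 ≤ (N * b ^ 2) ^ 2 := pow_le_pow_left₀ hM1 hM1' 2
    exact mul_le_mul h4 h5 (by positivity) (by positivity)
  have h3 : (124 * D ^ 4 * (N * (N * P + Q))) * (N * E) * (N * b ^ 2) ^ 2 = 124 * (D * (N * b * Y)) ^ 4 := by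
    rw [mul_pow D _ 4, mul_pow (N * b) Y 4, hY4]
    ring
  have h4 : S ^ 4 ≤ (4 * (D * (N * b * Y))) ^ 4 := by
    rw [mul_pow 4 _ 4]
    refine h2.trans (h3.le.trans ?_)
    have : 0 ≤ (D * (N * b * Y)) ^ 4 := by positivity
    norm_num
    linarith
  have h5 : S ≤ 4 * (D * (N * b * Y)) := by
    by_contra hlt
    push Not at hlt
    have h6 : 0 ≤ 4 * (D * (N * b * Y)) := by positivity
    exact absurd h4 (not_le.2 (pow_lt_pow_left₀ hlt h6 (by norm_num)))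
  have h6 : 2 / N * S ≤ 8 * (D * (b * Y)) := by
    have h7 : 2 / N * S ≤ 2 / N * (4 * (D * (N * b * Y))) := mul_le_mul_of_nonneg_left h5 (by positivity)
    have h8 : 2 / N * (4 * (D * (N * b * Y))) = 8 * (D * (b * Y)) := by
      field_simp
      ring
    linarith
  have h7 : 2 * N0 * b ≤ 2 * (D * (N * b)) := by
    have := mul_le_mul_of_nonneg_right hN0' hb
    nlinarith
  have h8 : 0 ≤ D * (N * b) := by positivity
  have h9 : 0 ≤ D * (b * Y) := by positivity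
  have h10 : 100 * D * (N * b + b * Y) = 100 * (D * (N * b)) + 100 * (D * (b * Y)) := by ring
  rw [h10]
  linarith

theorem P3S (hM4S : M4S_stmt) (hPCA : PCA_stmt) (hPCB : PCB_stmt) (hPC3 : PC3_stmt) : P3S_stmt := by
  classical
  intro p hp χ S H B β D hχ hp2 hS hH hD hSS hpD hker hβ
  have hpp : 0 < p := hp.out.pos
  have hX := hPCA p χ S H B β hS hH hker hβ
  have hA := hM4S p χ S D hχ hp2 hS (by linarith) hSS
  obtain ⟨hM1, hM2⟩ := hPCB p H B
  rw [P3S_sum (fun c c' => ‖TpS χ S (some c) (some c')‖ * (mmS H B c c' : ℝ))] at hX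
  rw [P3S_sum (fun c c' => ‖TpS χ S (some c) (some c')‖ ^ 4)] at hA
  have hC := hPC3 (ZMod p × ZMod p) ((univ : Finset (ZMod p × ZMod p)).filter (fun z => z.1 ≠ z.2))
    (fun z => ‖TpS χ S (some z.1) (some z.2)‖) (fun z => (mmS H B z.1 z.2 : ℝ)) (fun _ _ => norm_nonneg _)
    (fun _ _ => Nat.cast_nonneg _)
  have hT0' : (0 : ℝ) < S.card := by exact_mod_cast hS.card_pos
  have hN' : (0 : ℝ) < H.card := by exact_mod_cast hH.card_pos
  have hM1' : ∑ z ∈ (univ : Finset (ZMod p × ZMod p)).filter (fun z => z.1 ≠ z.2), (mmS H B z.1 z.2 : ℝ) ≤ H.card * (B.card : ℝ) ^ 2 := by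
    refine le_trans ?_ hM1
    rw [← Fintype.sum_prod_type']
    exact Finset.sum_le_sum_of_subset_of_nonneg (Finset.filter_subset _ _) (fun _ _ _ => Nat.cast_nonneg _)
  have hM2' : ∑ z ∈ (univ : Finset (ZMod p × ZMod p)).filter (fun z => z.1 ≠ z.2), (mmS H B z.1 z.2 : ℝ) ^ 2 ≤ H.card * (ES H B : ℝ) := by
    refine le_trans ?_ hM2
    rw [← Fintype.sum_prod_type' (fun c c' => (mmS H B c c' : ℝ) ^ 2)]
    exact Finset.sum_le_sum_of_subset_of_nonneg (Finset.filter_subset _ _) (fun _ _ _ => by positivity)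
  refine P3S_num _ _ _ _ _ H.card B.card (ES H B) ((p : ℝ) ^ (11 / 4 : ℝ)) ((p : ℝ) ^ 2) ((p : ℝ) / S.card) D hN' (Nat.cast_nonneg _)
    (Nat.cast_nonneg _) (by positivity) (by positivity) hD (by positivity) ?_ hA ?_ hM2' ?_ hM1' hC hX
  · rw [div_le_iff₀ hT0']
    exact hpD
  · exact Finset.sum_nonneg fun _ _ => by positivity
  · exact Finset.sum_nonneg fun _ _ => Nat.cast_nonneg _

end Pool.Agent.OG
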