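import Mathlib
import Pool.Agent.helper64.OT.SpecW

set_option autoImplicit false

namespace Pool.Agent.OT

open Finset Polynomial Pool.Agent.helper82.Weil Pool.Agent.helper82.KL

/-- the value of a character at `± 1` has modulus one -/
lemma RRW_norm {p : ℕ} [Fact p.Prime] (χ : MulChar (ZMod p) ℂ) (n : ℕ) : ‖χ ((-1) ^ n)‖ = 1 := by
  have h1 : χ ((-1) ^ n) * χ ((-1) ^ n) = 1 := by
    rw [← map_mul, ← mul_pow, neg_one_mul, neg_neg, one_pow, map_one]
  have h2 : ‖χ ((-1) ^ n)‖ * ‖χ ((-1) ^ n)‖ = 1 := by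
    rw [← norm_mul, h1, norm_one]
  nlinarith [norm_nonneg (χ ((-1) ^ n))]

theorem RRW (hWRB : WRB_stmt) (hRRC : RRC_stmt) (hRR1 : RR1_stmt) (hRRH : RRH_stmt) (hRRS : RRS_stmt) (hRRB : RRB_stmt) (hWFD : WFD_stmt) : RRW_stmt := by
  intro p _ χ f hχ hf hsep hd
  obtain ⟨d, hdd⟩ : ∃ d, d = f.natDegree := ⟨_, rfl⟩
  obtain ⟨N, hN, hK⟩ := hWFD p f
  have hp0 : 0 < p := (Fact.out : p.Prime).pos
  have hR : 0 < Real.sqrt p := Real.sqrt_pos.2 (by exact_mod_cast hp0)
  let L : ℂ[X] := ∑ n ∈ range d, C (cA (LR χ f) n) * X ^ n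
  have hL : ∀ n, L.coeff n = cA (LR χ f) n := by
    intro n
    show (∑ n ∈ range d, C (cA (LR χ f) n) * X ^ n).coeff n = _
    rw [finsetSum_coeff]
    simp only [coeff_C_mul, coeff_X_pow, mul_ite, mul_one, mul_zero]
    rw [Finset.sum_ite_eq]
    by_cases hn : n < d
    · rw [if_pos (Finset.mem_range.2 hn)]
    · rw [if_neg (fun h => hn (Finset.mem_range.1 h))]
      exact (hRRH p χ f n hχ hf hsep hd (by omega)).symm
  have hdeg : L.natDegree ≤ d := by
    refine natDegree_sum_le_of_forall_le _ _ fun n hn => ?_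
    exact (natDegree_C_mul_X_pow_le _ _).trans (Finset.mem_range.1 hn).le
  have hC := hRRC p χ f hf
  have h1 := hWRB Unit (fun _ => L) (fun _ => SA (LR χ f)) (Real.sqrt p) d N hR hN
    (fun _ => by rw [hL, cA_zero hC])
    (fun _ n => by
      rw [hL, newton hC n]
      refine Finset.sum_congr rfl fun r _ => ?_
      rw [hL])
    (fun s hs => by
      obtain ⟨K, i1, i2, i3, hfin, hspl⟩ := hK s hs
      rw [Fintype.sum_unique]
      rw [hRRS p K χ f (N * s) hf hfin, norm_mul, RRW_norm, one_mul]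
      refine (hRRB p K χ f hχ hf hsep hd hspl).trans (le_of_eq ?_)
      have hcard : Fintype.card K = p ^ (N * s) := by
        rw [Module.card_eq_pow_finrank (K := ZMod p) (V := K), ZMod.card, hfin]
      rw [hcard, ← hdd]
      push_cast
      congr 1
      rw [Real.sqrt_eq_iff_mul_self_eq (by positivity) (by positivity), ← mul_pow,
        Real.mul_self_sqrt (by positivity)]) ()
  rw [hL, hRR1 p χ f hf, norm_mul, RRW_norm, one_mul] at h1
  refine h1.trans ?_
  rw [← hdd]
  exact mul_le_mul_of_nonneg_right (by exact_mod_cast hdeg) hR.le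

end Pool.Agent.OT
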