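import Pool.Agent.helper35.OT.Spec

set_option autoImplicit false

/-! # Project OT, row TRN: the series `u` is transcendental -/

namespace Pool.Agent.helper35.OT

open Finset

theorem TRN (hEVL : EVL_stmt) (hEO : EO_stmt) (hFLD : FLD_stmt) (hWAN : WAN_stmt) (hHAN : HAN_stmt) (hORD : ORD_stmt) : TRN_stmt := by
  intro a c L ρ hD P hP hev
  have hc0 : (c : ℚ) ≠ 0 := by
    have h1 := hD.c1
    exact_mod_cast (by omega : c ≠ 0)
  have heq : PowerSeries.C (c : ℚ) * sq2 (gs a) =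
      gs a ^ 2 - ((L.map (Int.castRingHom ℚ) : Polynomial ℚ) : PowerSeries ℚ) := by
    ext n
    rw [PowerSeries.coeff_C_mul, map_sub, pow_two, PowerSeries.coeff_mul, Polynomial.coeff_coe,
      Polynomial.coeff_map, Finset.Nat.sum_antidiagonal_eq_sum_range_succ_mk]
    simp only [sq2, gs, PowerSeries.coeff_mk]
    have h := hD.fe n
    have h' : ((∑ i ∈ range (n + 1), a i * a (n - i) : ℤ) : ℚ) =
        ((c * (if n % 2 = 0 then a (n / 2) else 0) + L.coeff n : ℤ) : ℚ) := by rw [h]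
    push_cast at h'
    rw [h', eq_intCast]
    ring
  obtain ⟨A, hA, B, hAB⟩ := hFLD (gs a) (sq2 (gs a)) (c : ℚ) (L.map (Int.castRingHom ℚ)) hc0 heq
    ⟨P, hP, hev⟩ (fun Q hQ h => hEO Q (gs a) hQ h)
  obtain ⟨W, hW1, hW2, hW3, hW4⟩ := hWAN a c L ρ hD
  obtain ⟨H, hH1, hH2⟩ := hHAN a ρ B hD.r0 hD.r1 hD.sm
  have hsm : Summable fun n => |((PowerSeries.coeff n (gs a) : ℚ) : ℝ)| * ρ ^ n := by
    have h1 := hD.sm
    have h2 : (fun n => |((PowerSeries.coeff n (gs a) : ℚ) : ℝ)| * ρ ^ n) =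
        fun n => |(a n : ℝ)| * ρ ^ n := by
      funext n
      unfold gs
      rw [PowerSeries.coeff_mk, Rat.cast_intCast]
    rw [h2]
    exact h1
  have hE := hEVL (Polynomial.C A * Polynomial.X) (gs a) ρ hD.r0 hsm
  have hevA : ev (Polynomial.C A * Polynomial.X) (gs a) = (A : PowerSeries ℚ) * gs a := by
    unfold ev
    rw [Polynomial.eval₂_mul, Polynomial.eval₂_C, Polynomial.eval₂_X]
    rfl
  apply hORD ρ W H (A.map (algebraMap ℚ ℂ)) hD.r0 hD.r1 (Polynomial.map_ne_zero hA) hW1 hH1 hW2 hW3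
  intro x hx
  have h1 := hE.2 x hx.le
  rw [hevA, hAB, ← hH2 x hx, Polynomial.eval₂_mul, Polynomial.eval₂_C, Polynomial.eval₂_X] at h1
  have h2 : phx x A = (A.map (algebraMap ℚ ℂ)).eval x := by
    rw [Polynomial.eval_map]
    rfl
  rw [h2] at h1
  rw [hW4 x hx, h1]
  ring

end Pool.Agent.helper35.OT
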